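import Mathlib
import Pool.Agent.SZG.StmtsW

/-!
# Squad SZG, row RGI (helper27): Fourier inversion on a group.
-/

set_option autoImplicit false

namespace Pool.Agent.SZG.H27

open scoped BigOperators
open Pool.Agent.THS

theorem rgi (ort : THS.OrtStatement) : RgiStmt := by
  intro g K I _ _ T a d i j
  have h1 : ∀ b : Ch g, (sgn b (a + d) : K) * RG T a b i j =
      ∑ c : Ch g, ((sgn b (a + d) * sgn b (a + c) : ℤ) : K) * (T (i + j) (a + c) * T (i - j) c) := by
    intro b
    unfold RG
    rw [Finset.mul_sum]
    refine Finset.sum_congr rfl fun c _ => ?_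
    push_cast
    ring
  rw [Finset.sum_congr rfl fun b _ => h1 b, Finset.sum_comm]
  have h2 : ∀ c : Ch g, ∑ b : Ch g, ((sgn b (a + d) * sgn b (a + c) : ℤ) : K) *
      (T (i + j) (a + c) * T (i - j) c) =
      if c = d then (2 : K) ^ g * (T (i + j) (a + d) * T (i - j) d) else 0 := by
    intro c
    rw [← Finset.sum_mul, ← Int.cast_sum, ort g (a + d) (a + c)]
    by_cases h : c = d
    · subst h
      rw [if_pos rfl, if_pos rfl]
      push_cast
      ring
    · rw [if_neg h, if_neg (fun h' => h (add_left_cancel h').symm)]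
      push_cast
      ring
  rw [Finset.sum_congr rfl fun c _ => h2 c, Finset.sum_ite_eq']
  simp

end Pool.Agent.SZG.H27
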