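import Mathlib
import Pool.Agent.SZG.StmtsD
import Pool.Agent.Helper27_THS.SHM

/-!
# Squad SZG, row SEL (helper27): the calculus of short sums, selection.
-/

set_option autoImplicit false

namespace Pool.Agent.SZG.H27

open Pool.Agent.THS (Short)
open Pool.Agent.THS.H27 (short_of_fintype)

theorem sel : SelStmt := by
  intro K _ v hv
  refine ⟨?_, ?_, ?_, ?_, ?_, ?_⟩
  · rintro c ε F ⟨A, B, hA, hB, h⟩
    refine ⟨fun s i => -A s i, B, fun s i => ?_, hB, fun i j => ?_⟩
    · rw [AbsoluteValue.map_neg]
      exact hA s i
    · have e : -F i j - ∑ s, -A s i * B s j = -(F i j - ∑ s, A s i * B s j) := by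
        simp only [neg_mul, Finset.sum_neg_distrib]
        ring
      rw [e, AbsoluteValue.map_neg]
      exact h i j
  · intro ε f hε hf
    refine ⟨fun _ => f, fun _ _ => 1, fun _ i => hf i, fun _ _ => by simp, fun i j => ?_⟩
    simpa using hε
  · intro ε f hε hf
    refine ⟨fun _ _ => 1, fun _ => f, fun _ _ => by simp, fun _ i => hf i, fun i j => ?_⟩
    simpa using hε
  · rintro c ε f F hε hf ⟨A, B, hA, hB, h⟩
    refine ⟨fun s i => f i * A s i, B, fun s i => ?_, hB, fun i j => ?_⟩
    · rw [map_mul]
      exact mul_le_one₀ (hf i) (apply_nonneg v _) (hA s i)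
    · have e : f i * F i j - ∑ s, f i * A s i * B s j = f i * (F i j - ∑ s, A s i * B s j) := by
        rw [mul_sub, Finset.mul_sum]
        congr 1
        exact Finset.sum_congr rfl fun s _ => by ring
      rw [e, map_mul]
      calc v (f i) * v (F i j - ∑ s, A s i * B s j) ≤ 1 * ε :=
            mul_le_mul (hf i) (h i j) (apply_nonneg v _) zero_le_one
        _ = ε := one_mul ε
  · intro n c ε ι _ o F hn hε h
    classical
    choose A B hA hB hF using h
    refine short_of_fintype v (ι := ι × Fin c) (by simp [hn])
      (fun s i => if o i = s.1 then A s.1 s.2 i else 0) (fun s i => B s.1 s.2 i) ?_ ?_ ?_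
    · intro s i
      show v (if o i = s.1 then A s.1 s.2 i else 0) ≤ 1
      split_ifs
      · exact hA _ _ _
      · simp
    · intro s i
      exact hB _ _ _
    · intro i j
      have e : ∑ s : ι × Fin c, (if o i = s.1 then A s.1 s.2 i else 0) * B s.1 s.2 j =
          ∑ s : Fin c, A (o i) s i * B (o i) s j := by
        rw [Fintype.sum_prod_type, Finset.sum_eq_single (o i)]
        · simp
        · intro b _ hb
          refine Finset.sum_eq_zero fun s _ => ?_
          rw [if_neg (fun h => hb h.symm), zero_mul]
        · intro h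
          exact absurd (Finset.mem_univ _) h
      rw [e]
      exact hF (o i) i j
  · rintro c ε F m ⟨A, B, hA, hB, h⟩
    exact ⟨⟨fun s i => A s (i + m), fun s i => B s (-i), fun s i => hA _ _, fun s i => hB _ _,
      fun i j => h _ _⟩, ⟨fun s i => A s (i + m), B, fun s i => hA _ _, hB, fun i j => h _ _⟩⟩

end Pool.Agent.SZG.H27
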