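import Mathlib
import Pool.Agent.SZG.StmtsR

/-!
# Squad SZG, row SWC (helper27): the calculus of weighted short functions.
-/

set_option autoImplicit false

namespace Pool.Agent.SZG.H27

open Pool.Agent.THS (Short)

theorem sum_le {K : Type} [Field K] (v : AbsoluteValue K ℝ) (hv : IsNonarchimedean v) {ι : Type}
    (s : Finset ι) (f : ι → K) (C : ℝ) (hC : 0 ≤ C) (h : ∀ i ∈ s, v (f i) ≤ C) :
    v (∑ i ∈ s, f i) ≤ C := by
  classical
  induction s using Finset.induction_on with
  | empty => simpa using hC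
  | insert a s ha ih =>
    rw [Finset.sum_insert ha]
    exact (hv _ _).trans (max_le (h a (Finset.mem_insert_self _ _))
      (ih fun i hi => h i (Finset.mem_insert_of_mem hi)))

theorem sw_of_fintype {K : Type} [Field K] (v : AbsoluteValue K ℝ) {ι : Type} [Fintype ι]
    {c : ℕ} (hc : Fintype.card ι = c) {ε : ℝ} {χ ω : ℤ → ℝ} {F : ℤ → ℤ → K} (A B : ι → ℤ → K)
    (hAB : ∀ j k s, v (A j k) * v (B j s) ≤ χ k * ω s)
    (h : ∀ k s, v (F k s - ∑ j, A j k * B j s) ≤ ε * (χ k * ω s)) : SW v c ε χ ω F := by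
  subst hc
  refine ⟨fun s => A ((Fintype.equivFin ι).symm s), fun s => B ((Fintype.equivFin ι).symm s),
    fun j k s => hAB _ k s, fun i j => ?_⟩
  have e : ∑ s : Fin (Fintype.card ι), A ((Fintype.equivFin ι).symm s) i *
      B ((Fintype.equivFin ι).symm s) j = ∑ s, A s i * B s j :=
    Equiv.sum_comp (Fintype.equivFin ι).symm (fun s => A s i * B s j)
  rw [e]
  exact h i j

theorem swc : SwcStmt := by
  intro K _ v χ ω hv hχ hω
  have hχω : ∀ k s, 0 ≤ χ k * ω s := fun k s => mul_nonneg (hχ k) (hω s)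
  refine ⟨?_, ?_, ?_, ?_⟩
  · intro P Q ε hε h
    refine ⟨fun _ => P, fun _ => Q, fun _ k s => h k s, fun k s => ?_⟩
    simpa using mul_nonneg hε (hχω k s)
  · intro n c ε ι _ F hn hε h
    choose A B hAB hF using h
    refine sw_of_fintype v (ι := ι × Fin c) (by simp [hn])
      (fun j k => A j.1 j.2 k) (fun j s => B j.1 j.2 s) (fun j k s => hAB _ _ k s) ?_
    intro k s
    rw [Fintype.sum_prod_type, ← Finset.sum_sub_distrib]
    exact sum_le v hv _ _ _ (mul_nonneg hε (hχω k s)) fun i _ => hF i k s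
  · rintro c c' ε F F' hε hF' ⟨A, B, hAB, h⟩ ⟨A', B', hA', hB', h'⟩
    refine sw_of_fintype v (ι := Fin c × Fin c') (by simp)
      (fun j k => A j.1 k * A' j.2 k) (fun j s => B j.1 s * B' j.2 s) ?_ ?_
    · intro j k s
      simp only [map_mul]
      calc v (A j.1 k) * v (A' j.2 k) * (v (B j.1 s) * v (B' j.2 s))
          = (v (A j.1 k) * v (B j.1 s)) * (v (A' j.2 k) * v (B' j.2 s)) := by ring
        _ ≤ (χ k * ω s) * 1 := by
            refine mul_le_mul (hAB _ _ _) ?_ (mul_nonneg (apply_nonneg v _) (apply_nonneg v _))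
              (hχω k s)
            exact mul_le_one₀ (hA' _ _) (apply_nonneg v _) (hB' _ _)
        _ = χ k * ω s := mul_one _
    · intro k s
      have e1 : ∑ j : Fin c × Fin c', A j.1 k * A' j.2 k * (B j.1 s * B' j.2 s) =
          (∑ j, A j k * B j s) * ∑ j, A' j k * B' j s := by
        rw [Fintype.sum_prod_type, Finset.sum_mul_sum]
        exact Finset.sum_congr rfl fun i _ => Finset.sum_congr rfl fun j _ => by ring
      have e2 : F k s * F' k s - (∑ j, A j k * B j s) * ∑ j, A' j k * B' j s =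
          (F k s - ∑ j, A j k * B j s) * F' k s +
            (∑ j, A j k * B j s) * (F' k s - ∑ j, A' j k * B' j s) := by ring
      rw [e1, e2]
      refine (hv _ _).trans (max_le ?_ ?_)
      · rw [map_mul]
        calc v (F k s - ∑ j, A j k * B j s) * v (F' k s) ≤ (ε * (χ k * ω s)) * 1 :=
              mul_le_mul (h k s) (hF' k s) (apply_nonneg v _) (mul_nonneg hε (hχω k s))
          _ = ε * (χ k * ω s) := mul_one _
      · rw [map_mul]
        have h1 : v (∑ j, A j k * B j s) ≤ χ k * ω s := by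
          refine sum_le v hv _ _ _ (hχω k s) fun j _ => ?_
          rw [map_mul]
          exact hAB j k s
        calc v (∑ j, A j k * B j s) * v (F' k s - ∑ j, A' j k * B' j s)
            ≤ (χ k * ω s) * ε := mul_le_mul h1 (h' k s) (apply_nonneg v _) (hχω k s)
          _ = ε * (χ k * ω s) := mul_comm _ _
  · rintro c ε χ' ω' F h1 h2 h
    have e1 : χ = χ' := funext h1
    have e2 : ω = ω' := funext h2
    rwa [← e1, ← e2]

end Pool.Agent.SZG.H27
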